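import Pool.Agent.P.MP_25e9c6_co.Main

namespace Pool.Agent.Results.MP_25e9c6_co.ConvexTope

open Pool.Agent.P.MP_25e9c6_co

/-- Every finite hypercellular graph is a convex subgraph of the tope graph of a finite central
hyperplane arrangement. -/
theorem result {W : Type} [Finite W] (G : SimpleGraph W) (hG : Hypercellular G) :
    ∃ (d : ℕ) (𝒜 : Finset (Submodule ℝ (Fin d → ℝ))), (∀ H ∈ 𝒜, Module.finrank ℝ H + 1 = d) ∧
      ∃ S : Set (regions 𝒜), IsConvexIn (topeGraph 𝒜) S ∧
        Nonempty (SimpleGraph.Iso G ((topeGraph 𝒜).induce S)) :=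
  main G hG

end Pool.Agent.Results.MP_25e9c6_co.ConvexTope
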