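import Pool.Agent.P.MP_25e9c6_co.Ret.Main

namespace Pool.Agent.Results.MP_25e9c6_co.NotRetract

open Pool.Agent.P.MP_25e9c6_co

/-- A finite hypercellular graph that is not a retract of any Cartesian product of graphs without
induced 3-cubes. -/
theorem result : ∃ (W : Type) (_ : Finite W) (G : SimpleGraph W), Hypercellular G ∧
    ∀ (ι : Type) (V : ι → Type) (H : ∀ i, SimpleGraph (V i)),
      (∀ i, IsEmpty (SimpleGraph.Embedding Q3 (H i))) → ¬ IsRetract G (boxPi H) :=
  ⟨Fin 26, inferInstance, exG, hyper_of_good ex_emb ex_good, fun _ _ H => ex_not_retract H⟩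

end Pool.Agent.Results.MP_25e9c6_co.NotRetract
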